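import Pool.Agent.R287.SPb

open Pool.Agent.R287.HS Pool.Agent.R287.SP

namespace Pool.Agent.Results.MP_3abc29_an.SpectrumNotSpectralSet

/-- There is a rational function `F = p/q` without poles on the circle, with `F(𝕋)` contained in a
simple closed curve, such that the Toeplitz operator `T_F` on `H²` exists (as a bounded operator)
and its spectrum is not a spectral set for it. Here `H²` is any Hilbert space `H` with an
orthonormal basis `e`, `e n` standing for `z^n`. -/
theorem result :
    ∃ p q : Polynomial ℂ, (∀ t : Cir, q.eval (fourier 1 t : ℂ) ≠ 0) ∧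
      (∃ γ : Circle → ℂ, Continuous γ ∧ Function.Injective γ ∧
        ∀ t : Cir, p.eval (fourier 1 t : ℂ) / q.eval (fourier 1 t : ℂ) ∈ Set.range γ) ∧
      ∀ (H : Type) [NormedAddCommGroup H] [InnerProductSpace ℂ H] [CompleteSpace H]
        (e : HilbertBasis ℕ ℂ H), ∃ T : H →L[ℂ] H,
        IsToeplitz e (fun t => p.eval (fourier 1 t : ℂ) / q.eval (fourier 1 t : ℂ)) T ∧
        ¬ IsSpectralSet T (spec T) := by
  refine ⟨pn, qn, fun t => qn_ne (norm_fourier 1 t), ⟨fun z => z, continuous_subtype_val,
    Circle.coe_injective, fun t => ?_⟩, ?_⟩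
  · exact ⟨⟨_, mem_sphere_zero_iff_norm.mpr (norm_F (norm_fourier 1 t))⟩, rfl⟩
  · intro H _ _ _ e
    exact ⟨(dat e).T, isToeplitz_dat e, (dat e).not_isSpectralSet⟩

end Pool.Agent.Results.MP_3abc29_an.SpectrumNotSpectralSet
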